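import Pool.Agent.Helper30.BG.Goals

/-!
# MP_66e6f4_an: packet BG-BAL (balance of the slopes)
-/

open InnerProductSpace Metric Set Filter Topology MeasureTheory
open scoped ContDiff Laplacian

namespace Pool.Agent.Helper77.BG

open Pool.Agent.Helper30.BG

/-- `p t = (max 0 t)²` has derivative `2 max 0 t`. -/
lemma hasDerivAt_p (t : ℝ) : HasDerivAt (fun t : ℝ => (max 0 t) ^ 2) (2 * max 0 t) t := by
  rcases lt_trichotomy t 0 with h | h | h
  · have e : (fun t : ℝ => (max 0 t) ^ 2) =ᶠ[𝓝 t] fun _ => 0 := by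
      filter_upwards [Iio_mem_nhds h] with s hs
      rw [max_eq_left (le_of_lt hs)]; norm_num
    rw [max_eq_left h.le, mul_zero]
    exact (hasDerivAt_const t (0 : ℝ)).congr_of_eventuallyEq e
  · subst h
    rw [hasDerivAt_iff_isLittleO_nhds_zero]
    simp only [max_self, zero_add, ne_eq, OfNat.ofNat_ne_zero, not_false_eq_true, zero_pow,
      sub_zero, mul_zero, smul_zero]
    have h1 : (fun h : ℝ => h ^ 2) =o[𝓝 0] fun h => h := Asymptotics.isLittleO_pow_id one_lt_two
    refine Asymptotics.IsBigO.trans_isLittleO (Asymptotics.IsBigO.of_bound 1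
      (Eventually.of_forall fun h => ?_)) h1
    rw [one_mul, Real.norm_eq_abs, Real.norm_eq_abs, abs_of_nonneg (sq_nonneg _),
      abs_of_nonneg (sq_nonneg _)]
    rcases le_total 0 h with h0 | h0
    · rw [max_eq_right h0]
    · rw [max_eq_left h0]
      nlinarith [sq_nonneg h]
  · have e : (fun t : ℝ => (max 0 t) ^ 2) =ᶠ[𝓝 t] fun t => t ^ 2 := by
      filter_upwards [Ioi_mem_nhds h] with s hs
      rw [max_eq_right (le_of_lt hs)]
    rw [max_eq_right h.le]
    have := (hasDerivAt_pow 2 t).congr_of_eventuallyEq e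
    refine this.congr_deriv ?_
    simp

lemma contDiff_p : ContDiff ℝ 1 (fun t : ℝ => (max 0 t) ^ 2) := by
  rw [contDiff_one_iff_deriv]
  refine ⟨fun t => (hasDerivAt_p t).differentiableAt, ?_⟩
  have : deriv (fun t : ℝ => (max 0 t) ^ 2) = fun t => 2 * max 0 t := funext fun t =>
    (hasDerivAt_p t).deriv
  rw [this]
  fun_prop

/-- the cut-off -/
noncomputable def mm (ξ : E3) : ℝ := max 0 (1 - ‖ξ‖ ^ 2)

noncomputable def ph (ξ : E3) : ℝ := mm ξ ^ 2

lemma cont_mm : Continuous mm := by unfold mm; fun_prop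

lemma mm_nonneg (ξ : E3) : 0 ≤ mm ξ := le_max_left _ _

lemma mm_zero {ξ : E3} (h : 1 ≤ ‖ξ‖) : mm ξ = 0 := by
  unfold mm
  exact max_eq_left (by nlinarith)

lemma contDiff_ph : ContDiff ℝ 1 ph := by
  have h1 : ContDiff ℝ 1 (fun ξ : E3 => 1 - ‖ξ‖ ^ 2) := contDiff_const.sub (contDiff_norm_sq ℝ)
  exact contDiff_p.comp h1

lemma pd_ph (i : Fin 3) (ξ : E3) : pd i ph ξ = -4 * ξ i * mm ξ := by
  have h0 := HD2.normSq 0 ξ
  have h1 : HasFDerivAt (fun y : E3 => ‖y - 0‖ ^ 2) (fderiv ℝ (fun y : E3 => ‖y - 0‖ ^ 2) ξ) ξ :=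
    (h0.cd.differentiableAt (by norm_num)).hasFDerivAt
  have h2 : fderiv ℝ (fun y : E3 => ‖y - 0‖ ^ 2) ξ (eb i) = 2 * (ξ i - 0) := by
    have := h0.pd i
    simpa [pd] using this
  have h3 := (hasDerivAt_p (1 - ‖ξ - 0‖ ^ 2)).comp_hasFDerivAt ξ (h1.const_sub 1)
  have h4 : ph = (fun t : ℝ => (max 0 t) ^ 2) ∘ (fun y : E3 => 1 - ‖y - 0‖ ^ 2) := by
    funext y
    simp [ph, mm]
  rw [pd, h4, h3.fderiv]
  simp only [smul_apply, neg_apply, h2, smul_eq_mul]
  unfold mm
  simp only [sub_zero]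
  ring

lemma hcs_ph : HasCompactSupport ph := by
  refine HasCompactSupport.intro (isCompact_closedBall (0 : E3) 1) fun x hx => ?_
  rw [mem_closedBall_zero_iff, not_le] at hx
  rw [ph, mm_zero hx.le]; norm_num

lemma hcs_of_mm {h : E3 → ℝ} (hh : ∀ x, mm x = 0 → h x = 0) : HasCompactSupport h := by
  refine HasCompactSupport.intro (isCompact_closedBall (0 : E3) 1) fun x hx => ?_
  rw [mem_closedBall_zero_iff, not_le] at hx
  exact hh x (mm_zero hx.le)

lemma cont_coord (i : Fin 3) : Continuous (fun ξ : E3 => ξ i) := by fun_prop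

lemma cont_pd {u : E3 → ℝ} (hu : ContDiff ℝ 1 u) (i : Fin 3) : Continuous (pd i u) := by
  have : Continuous (fderiv ℝ u) := hu.continuous_fderiv (by norm_num)
  exact this.clm_apply continuous_const

lemma int_pd (i : Fin 3) : Integrable (pd i ph) := by
  refine (cont_pd contDiff_ph i).integrable_of_hasCompactSupport (hcs_of_mm fun x hx => ?_)
  rw [pd_ph, hx, mul_zero]

/-- the positive part -/
noncomputable def hh (ξ : E3) : ℝ := max 0 (ξ 0) * mm ξ

lemma int_hh : Integrable hh := by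
  have : Continuous hh := by
    unfold hh
    exact (continuous_const.max (cont_coord 0)).mul cont_mm
  exact this.integrable_of_hasCompactSupport (hcs_of_mm fun x hx => by rw [hh, hx, mul_zero])

lemma integral_hh_pos : 0 < ∫ ξ, hh ξ := by
  have hc : Continuous hh := by
    unfold hh
    exact (continuous_const.max (cont_coord 0)).mul cont_mm
  refine hc.integral_pos_of_hasCompactSupport_nonneg_nonzero
    (hcs_of_mm fun x hx => by rw [hh, hx, mul_zero])
    (fun x => mul_nonneg (le_max_left _ _) (mm_nonneg x)) (x := (1 / 2 : ℝ) • eb 0) ?_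
  have h1 : ((1 / 2 : ℝ) • eb 0 : E3) 0 = 1 / 2 := by simp [eb_apply]
  have h2 : ‖((1 / 2 : ℝ) • eb 0 : E3)‖ = 1 / 2 := by
    rw [norm_smul, norm_eb]; norm_num
  rw [hh, mm, h1, h2]
  norm_num

lemma integral_pd_zero : ∫ ξ, pd 0 ph ξ = 0 := by
  have h1 : ∫ ξ, pd 0 ph (-ξ) = ∫ ξ, pd 0 ph ξ := integral_neg_eq_self (fun ξ => pd 0 ph ξ) volume
  have h2 : ∀ ξ : E3, pd 0 ph (-ξ) = - pd 0 ph ξ := by
    intro ξ
    rw [pd_ph, pd_ph]
    simp [mm]
  simp only [h2, integral_neg] at h1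
  linarith

lemma ae_ne : ∀ᵐ ξ : E3, ξ 0 ≠ 0 := by
  have h1 : (volume : Measure E3) (LinearMap.ker (EuclideanSpace.proj (0 : Fin 3) : E3 →L[ℝ] ℝ).toLinearMap : Set E3) = 0 := by
    refine Measure.addHaar_submodule _ _ fun h => ?_
    have h2 : eb 0 ∈ (⊤ : Submodule ℝ E3) := Submodule.mem_top
    rw [← h] at h2
    simp [eb_apply] at h2
  rw [ae_iff]
  refine measure_mono_null ?_ h1
  intro ξ hξ
  simpa using hξ

lemma pd_bound {u : E3 → ℝ} {K : ℝ} (hK : 0 < K) (hl : ∀ x y, |u x - u y| ≤ K * ‖x - y‖) (j : Fin 3)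
    (x : E3) : |pd j u x| ≤ K := by
  have h1 : LipschitzWith K.toNNReal u := by
    refine LipschitzWith.of_dist_le_mul fun x y => ?_
    rw [Real.dist_eq, dist_eq_norm, Real.coe_toNNReal _ hK.le]
    exact hl x y
  have h2 : ‖fderiv ℝ u x‖ ≤ K := by
    have := norm_fderiv_le_of_lipschitz ℝ (x₀ := x) h1
    rwa [Real.coe_toNNReal _ hK.le] at this
  have h3 : ‖fderiv ℝ u x (eb j)‖ ≤ ‖fderiv ℝ u x‖ * ‖eb j‖ := ContinuousLinearMap.le_opNorm _ _
  rw [norm_eb, mul_one] at h3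
  exact (h3.trans h2)

lemma Fp_deriv {f : ℝ → ℝ} (hf : Continuous f) (a0 t : ℝ) : HasDerivAt (Fp f a0) (f t) t :=
  intervalIntegral.integral_hasDerivAt_right (hf.intervalIntegrable _ _)
    hf.stronglyMeasurable.stronglyMeasurableAtFilter hf.continuousAt

lemma Fp_mono {f : ℝ → ℝ} (hf : Continuous f) (hn : ∀ v, 0 ≤ f v) (a0 : ℝ) : Monotone (Fp f a0) :=
  monotone_of_deriv_nonneg (fun t => (Fp_deriv hf a0 t).differentiableAt) fun t => by
    rw [(Fp_deriv hf a0 t).deriv]; exact hn t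

lemma Fp_lo {f : ℝ → ℝ} {a0 a1 : ℝ} (h : Nonl f a0 a1) {v : ℝ} (hv : v ≤ a0) : Fp f a0 v = 0 := by
  unfold Fp
  rw [intervalIntegral.integral_symm, neg_eq_zero]
  refine intervalIntegral.integral_zero_ae (ae_of_all _ fun t ht => ?_)
  rw [uIoc_of_le hv] at ht
  exact h.lo t ht.2

lemma Fp_hi {f : ℝ → ℝ} {a0 a1 : ℝ} (h : Nonl f a0 a1) {v : ℝ} (hv : a1 ≤ v) :
    Fp f a0 v = Fp f a0 a1 := by
  have hc := h.cd.continuous
  have h1 : Fp f a0 a1 + ∫ t in a1..v, f t = Fp f a0 v :=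
    intervalIntegral.integral_add_adjacent_intervals (hc.intervalIntegrable _ _)
      (hc.intervalIntegrable _ _)
  have h2 : ∫ t in a1..v, f t = 0 := by
    refine intervalIntegral.integral_zero_ae (ae_of_all _ fun t ht => ?_)
    rw [uIoc_of_le hv] at ht
    exact h.hi t ht.1.le
  linarith

lemma Fp_bd {f : ℝ → ℝ} {a0 a1 : ℝ} (h : Nonl f a0 a1) (v : ℝ) :
    0 ≤ Fp f a0 v ∧ Fp f a0 v ≤ Fp f a0 a1 := by
  have hm := Fp_mono h.cd.continuous h.nn a0
  constructor
  · rcases le_total v a0 with hv | hv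
    · rw [Fp_lo h hv]
    · have := hm hv
      rwa [Fp_lo h le_rfl] at this
  · rcases le_total v a1 with hv | hv
    · exact hm hv
    · rw [Fp_hi h hv]

theorem bal (hS : S_STRESS) (hL : S_LIM) : S_BAL := by
  intro f u a0 a1 α β K hs
  have hf : Continuous f := hs.nl.cd.continuous
  have hFd : ∀ t, HasDerivAt (Fp f a0) (f t) t := fun t => Fp_deriv hf a0 t
  have hFc : Continuous (Fp f a0) := continuous_iff_continuousAt.2 fun t => (hFd t).continuousAt
  have hu1 : ContDiff ℝ 1 u := hs.cd.of_le (by norm_num)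
  have huc : Continuous u := hu1.continuous
  set I : ℝ → E3 → ℝ := fun R ξ => pd 0 u (R • ξ) * ∑ j, pd j u (R • ξ) * pd j ph ξ -
    (1 / 2 * ∑ j, pd j u (R • ξ) ^ 2 + Fp f a0 (u (R • ξ))) * pd 0 ph ξ with hI
  have hzero : ∀ R : ℝ, 0 < R → ∫ ξ, I R ξ = 0 := fun R hR =>
    hS f (Fp f a0) u ph hf hFd hs.cd hs.eq contDiff_ph hcs_ph R hR
  set A : ℝ := Fp f a0 a1 with hA
  have hA0 : 0 ≤ A := (Fp_bd hs.nl a1).1
  obtain ⟨hLp, hLm⟩ := hL f u a0 a1 α β K hs
  set cp : ℝ := α ^ 2 / 2 - A with hcp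
  set cm : ℝ := β ^ 2 / 2 with hcm
  set L : E3 → ℝ := fun ξ => cm * pd 0 ph ξ - 4 * (cp - cm) * hh ξ with hLdef
  have hKp : ∀ j x, |pd j u x| ≤ K := fun j x => pd_bound hs.K_pos hs.lip j x
  have hcI : ∀ R, Continuous (I R) := by
    intro R
    have hsm : Continuous fun ξ : E3 => R • ξ := continuous_const_smul R
    have h1 : ∀ j, Continuous fun ξ : E3 => pd j u (R • ξ) := fun j => (cont_pd hu1 j).comp hsm
    have h2 : ∀ j, Continuous (pd j ph) := fun j => cont_pd contDiff_ph j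
    have h3 : Continuous fun ξ : E3 => Fp f a0 (u (R • ξ)) := hFc.comp (huc.comp hsm)
    rw [hI]
    refine ((h1 0).mul (continuous_finsetSum _ fun j _ => (h1 j).mul (h2 j))).sub
      (((continuous_const.mul (continuous_finsetSum _ fun j _ => (h1 j).pow 2)).add h3).mul (h2 0))
  have hlim : Tendsto (fun R => ∫ ξ, I R ξ) atTop (𝓝 (∫ ξ, L ξ)) := by
    refine tendsto_integral_filter_of_dominated_convergence
      (fun ξ => K * ∑ j, K * |pd j ph ξ| + (3 / 2 * K ^ 2 + A) * |pd 0 ph ξ|)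
      (Eventually.of_forall fun R => (hcI R).aestronglyMeasurable) ?_ ?_ ?_
    · refine Eventually.of_forall fun R => ae_of_all _ fun ξ => ?_
      rw [Real.norm_eq_abs]
      have h1 : |∑ j, pd j u (R • ξ) * pd j ph ξ| ≤ ∑ j, K * |pd j ph ξ| := by
        refine (Finset.abs_sum_le_sum_abs _ _).trans (Finset.sum_le_sum fun j _ => ?_)
        rw [abs_mul]
        exact mul_le_mul_of_nonneg_right (hKp j _) (abs_nonneg _)
      have h2 : |pd 0 u (R • ξ) * ∑ j, pd j u (R • ξ) * pd j ph ξ| ≤ K * ∑ j, K * |pd j ph ξ| := by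
        rw [abs_mul]
        exact mul_le_mul (hKp 0 _) h1 (abs_nonneg _) hs.K_pos.le
      have hsq : ∀ j, pd j u (R • ξ) ^ 2 ≤ K ^ 2 := fun j =>
        sq_le_sq' (abs_le.1 (hKp j _)).1 (abs_le.1 (hKp j _)).2
      have h3 : 0 ≤ 1 / 2 * ∑ j, pd j u (R • ξ) ^ 2 + Fp f a0 (u (R • ξ)) := by
        have := (Fp_bd hs.nl (u (R • ξ))).1
        have h4 : 0 ≤ ∑ j, pd j u (R • ξ) ^ 2 := Finset.sum_nonneg fun j _ => sq_nonneg _
        linarith
      have h4 : 1 / 2 * ∑ j, pd j u (R • ξ) ^ 2 + Fp f a0 (u (R • ξ)) ≤ 3 / 2 * K ^ 2 + A := by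
        have := (Fp_bd hs.nl (u (R • ξ))).2
        rw [Fin.sum_univ_three]
        linarith [hsq 0, hsq 1, hsq 2]
      have h5 : |(1 / 2 * ∑ j, pd j u (R • ξ) ^ 2 + Fp f a0 (u (R • ξ))) * pd 0 ph ξ| ≤
          (3 / 2 * K ^ 2 + A) * |pd 0 ph ξ| := by
        rw [abs_mul, abs_of_nonneg h3]
        exact mul_le_mul_of_nonneg_right h4 (abs_nonneg _)
      exact (abs_sub _ _).trans (add_le_add h2 h5)
    · refine Integrable.add ?_ ?_
      · refine (integrable_finsetSum _ fun j _ => ?_).const_mul K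
        exact (int_pd j).abs.const_mul K
      · exact (int_pd 0).abs.const_mul _
    · filter_upwards [ae_ne] with ξ hξ
      rcases lt_or_gt_of_ne hξ with h | h
      · -- left
        obtain ⟨h1, h2⟩ := hLm ξ h
        have h3 : Tendsto (fun R : ℝ => Fp f a0 (u (R • ξ))) atTop (𝓝 0) :=
          (tendsto_congr' h2).2 tendsto_const_nhds
        have h4 := ((h1 0).mul (tendsto_finsetSum Finset.univ
          fun j _ => (h1 j).mul (tendsto_const_nhds (x := pd j ph ξ)))).sub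
          (((tendsto_const_nhds (x := (1 / 2 : ℝ))).mul (tendsto_finsetSum Finset.univ
            fun j _ => (h1 j).pow 2)).add h3 |>.mul (tendsto_const_nhds (x := pd 0 ph ξ)))
        have e : L ξ = (if (0 : Fin 3) = 0 then β else 0) * ∑ j : Fin 3, (if j = 0 then β else 0) *
            pd j ph ξ - (1 / 2 * ∑ j : Fin 3, (if j = 0 then β else 0) ^ 2 + 0) * pd 0 ph ξ := by
          rw [hLdef]
          have : hh ξ = 0 := by rw [hh, max_eq_left h.le, zero_mul]
          simp only [this, Fin.sum_univ_three]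
          simp
          rw [hcm]
          ring
        rw [e]
        exact h4
      · obtain ⟨h1, h2⟩ := hLp ξ h
        have h3 : Tendsto (fun R : ℝ => Fp f a0 (u (R • ξ))) atTop (𝓝 A) := by
          refine (tendsto_congr' ?_).2 tendsto_const_nhds
          filter_upwards [h2] with R hR
          exact Fp_hi hs.nl hR
        have h4 := ((h1 0).mul (tendsto_finsetSum Finset.univ
          fun j _ => (h1 j).mul (tendsto_const_nhds (x := pd j ph ξ)))).sub
          (((tendsto_const_nhds (x := (1 / 2 : ℝ))).mul (tendsto_finsetSum Finset.univ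
            fun j _ => (h1 j).pow 2)).add h3 |>.mul (tendsto_const_nhds (x := pd 0 ph ξ)))
        have e : L ξ = (if (0 : Fin 3) = 0 then α else 0) * ∑ j : Fin 3, (if j = 0 then α else 0) *
            pd j ph ξ - (1 / 2 * ∑ j : Fin 3, (if j = 0 then α else 0) ^ 2 + A) * pd 0 ph ξ := by
          rw [hLdef]
          have : hh ξ = ξ 0 * mm ξ := by rw [hh, max_eq_right h.le]
          simp only [this, Fin.sum_univ_three]
          simp
          rw [hcm, hcp, pd_ph]
          ring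
        rw [e]
        exact h4
  have hlim0 : Tendsto (fun R => ∫ ξ, I R ξ) atTop (𝓝 0) := by
    refine (tendsto_congr' ?_).2 tendsto_const_nhds
    filter_upwards [eventually_gt_atTop (0 : ℝ)] with R hR
    exact hzero R hR
  have h1 : ∫ ξ, L ξ = 0 := tendsto_nhds_unique hlim hlim0
  have h2 : ∫ ξ, L ξ = cm * (∫ ξ, pd 0 ph ξ) - 4 * (cp - cm) * (∫ ξ, hh ξ) := by
    rw [hLdef, integral_sub ((int_pd 0).const_mul cm) (int_hh.const_mul _), integral_const_mul,
      integral_const_mul]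
  rw [h2, integral_pd_zero, mul_zero, zero_sub, neg_eq_zero] at h1
  have h3 := integral_hh_pos
  have h4 : 4 * (cp - cm) = 0 := by
    rcases mul_eq_zero.1 h1 with h | h
    · exact h
    · exact absurd h h3.ne'
  rw [hcp, hcm] at h4
  linarith

end Pool.Agent.Helper77.BG
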